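import Pool.Agent.N239.Aff.Defs

set_option autoImplicit false
open Set Metric MeasureTheory
open scoped ENNReal NNReal

namespace Pool.Agent.N239.Aff

/-! ### Covering numbers -/

theorem coverNum_le {d n : ℕ} (r : ℝ) (E : Set (Euc d)) (U : Fin n → Set (Euc d))
    (h : ∀ i, ∀ x ∈ U i, ∀ y ∈ U i, dist x y ≤ r) (hE : E ⊆ ⋃ i, U i) : coverNum r E ≤ n :=
  Nat.sInf_le ⟨U, h, hE⟩

theorem exists_cover {d : ℕ} (r : ℝ) (hr : 0 < r) (E : Set (Euc d)) (hE : Bornology.IsBounded E) :
    {n : ℕ | ∃ U : Fin n → Set (Euc d), (∀ i, ∀ x ∈ U i, ∀ y ∈ U i, dist x y ≤ r) ∧ E ⊆ ⋃ i, U i}.Nonempty := by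
  have hc : IsCompact (closure E) := hE.isCompact_closure
  obtain ⟨s, -, hs, hcov⟩ := hc.finite_cover_balls (half_pos hr)
  have : Fintype s := hs.fintype
  let e := Fintype.equivFin s
  refine ⟨Fintype.card s, fun i => Metric.ball (e.symm i : Euc d) (r / 2), ?_, ?_⟩
  · intro i x hx y hy
    rw [Metric.mem_ball] at hx hy
    have := dist_triangle_right x y (e.symm i : Euc d)
    linarith
  · intro x hx
    obtain ⟨y, hy, hxy⟩ := mem_iUnion₂.1 (hcov (subset_closure hx))
    refine mem_iUnion.2 ⟨e ⟨y, hy⟩, ?_⟩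
    rw [Equiv.symm_apply_apply]
    exact hxy

theorem le_coverNum {d : ℕ} (r : ℝ) (hr : 0 < r) (E : Set (Euc d)) (hE : Bornology.IsBounded E)
    {ι : Type} [Fintype ι] (p : ι → Euc d) (hp : ∀ i, p i ∈ E) (hsep : ∀ i j, i ≠ j → r < dist (p i) (p j)) :
    Fintype.card ι ≤ coverNum r E := by
  obtain ⟨U, hU, hcov⟩ := Nat.sInf_mem (exists_cover r hr E hE)
  have h : ∀ i, ∃ k, p i ∈ U k := fun i => mem_iUnion.1 (hcov (hp i))
  choose f hf using h
  have hinj : Function.Injective f := by
    intro i j hij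
    by_contra hne
    have h1 := hf i
    have h2 := hf j
    rw [← hij] at h2
    exact absurd (hU _ _ h1 _ h2) (not_le.2 (hsep i j hne))
  have := Fintype.card_le_of_injective f hinj
  rwa [Fintype.card_fin] at this

theorem coverNum_mono {d : ℕ} (r : ℝ) (hr : 0 < r) (E E' : Set (Euc d)) (hE : Bornology.IsBounded E') (h : E ⊆ E') :
    coverNum r E ≤ coverNum r E' := by
  obtain ⟨U, hU, hcov⟩ := Nat.sInf_mem (exists_cover r hr E' hE)
  exact coverNum_le r E U hU (h.trans hcov)

/-! ### Diagonal maps -/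

/-- The linear map with diagonal matrix `diag a`. -/
noncomputable def diagMap (a : Fin 2 → ℝ) : Euc 2 →L[ℝ] Euc 2 :=
  LinearMap.toContinuousLinearMap
    { toFun := fun x => WithLp.toLp 2 (fun j => a j * x j)
      map_add' := by
        intro x y
        ext j
        simp [mul_add]
      map_smul' := by
        intro c x
        ext j
        simp
        ring }

theorem diagMap_apply (a : Fin 2 → ℝ) (x : Euc 2) (j : Fin 2) : diagMap a x j = a j * x j := rfl

theorem diagMap_norm (a : Fin 2 → ℝ) (c : ℝ) (hc : 0 ≤ c) (h : ∀ j, |a j| ≤ c) : ‖diagMap a‖ ≤ c := by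
  refine ContinuousLinearMap.opNorm_le_bound _ hc (fun x => ?_)
  rw [EuclideanSpace.norm_eq, EuclideanSpace.norm_eq, ← Real.sqrt_sq hc, ← Real.sqrt_mul (sq_nonneg c)]
  apply Real.sqrt_le_sqrt
  rw [Finset.mul_sum]
  refine Finset.sum_le_sum (fun j _ => ?_)
  rw [diagMap_apply, norm_mul, mul_pow]
  refine mul_le_mul_of_nonneg_right ?_ (sq_nonneg _)
  rw [Real.norm_eq_abs]
  exact pow_le_pow_left₀ (abs_nonneg _) (h j) 2

theorem diagMap_bij (a : Fin 2 → ℝ) (h : ∀ j, a j ≠ 0) : Function.Bijective (diagMap a) := by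
  constructor
  · intro x y hxy
    ext j
    have := congrArg (fun z : Euc 2 => z j) hxy
    simp only [diagMap_apply] at this
    exact mul_left_cancel₀ (h j) this
  · intro y
    refine ⟨WithLp.toLp 2 (fun j => y j / a j), ?_⟩
    ext j
    rw [diagMap_apply]
    show a j * (y j / a j) = y j
    rw [mul_div_cancel₀ _ (h j)]

/-! ### Existence of the attractor -/

section exist
variable {m d : ℕ} (A : Fin m → (Euc d →L[ℝ] Euc d)) (t : Fin m → Euc d)

/-- the affine map -/
noncomputable def amap (i : Fin m) (x : Euc d) : Euc d := A i x + t i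

theorem continuous_amap (i : Fin m) : Continuous (amap A t i) := by
  unfold amap
  fun_prop

/-- the orbit of a point -/
def orb (z : Euc d) : Set (Euc d) := {p | ∃ w : List (Fin m), p = w.foldr (fun i x => amap A t i x) z}

theorem orb_eq (z : Euc d) (i0 : Fin m) (hz : amap A t i0 z = z) :
    orb A t z = ⋃ i, amap A t i '' orb A t z := by
  apply Set.Subset.antisymm
  · rintro _ ⟨w, rfl⟩
    cases w with
    | nil =>
      refine mem_iUnion.2 ⟨i0, z, ⟨[], rfl⟩, ?_⟩
      exact hz
    | cons i w =>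
      exact mem_iUnion.2 ⟨i, _, ⟨w, rfl⟩, rfl⟩
  · intro p hp
    obtain ⟨i, q, ⟨w, rfl⟩, rfl⟩ := mem_iUnion.1 hp
    exact ⟨i :: w, rfl⟩

theorem exists_attractor (i0 : Fin m) (hA : ∀ i, ‖A i‖ < 1/2) : ∃ F, IsAttractor A t F := by
  -- the fixed point of the map i0
  have hcon : ContractingWith (1/2 : ℝ≥0) (amap A t i0) := by
    refine ⟨by rw [← NNReal.coe_lt_coe]; norm_num, ?_⟩
    refine LipschitzWith.of_dist_le_mul (fun x y => ?_)
    unfold amap
    rw [dist_add_right, dist_eq_norm, ← map_sub, dist_eq_norm]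
    refine ((A i0).le_opNorm _).trans ?_
    refine mul_le_mul_of_nonneg_right ?_ (norm_nonneg _)
    have := (hA i0).le
    norm_num at this ⊢
    exact this
  obtain ⟨z, hz, -⟩ := hcon.exists_fixedPoint (0 : Euc d) (edist_ne_top _ _)
  -- boundedness
  obtain ⟨B, hB⟩ : ∃ B : ℝ, ∀ i, ‖t i‖ ≤ B := by
    refine ⟨∑ i, ‖t i‖, fun i => ?_⟩
    exact Finset.single_le_sum (f := fun i => ‖t i‖) (fun i _ => norm_nonneg _) (Finset.mem_univ i)
  have hB0 : 0 ≤ B := (norm_nonneg _).trans (hB i0)
  have hbd : ∀ w : List (Fin m), ‖w.foldr (fun i x => amap A t i x) z‖ ≤ 2 * B + ‖z‖ := by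
    intro w
    induction w with
    | nil => simp; positivity
    | cons i w ih =>
      simp only [List.foldr_cons]
      set y := w.foldr (fun i x => amap A t i x) z
      unfold amap
      refine (norm_add_le _ _).trans ?_
      have h1 := (A i).le_opNorm y
      have h2 : ‖A i‖ * ‖y‖ ≤ 1/2 * (2 * B + ‖z‖) :=
        mul_le_mul (hA i).le ih (norm_nonneg _) (by norm_num)
      have h3 := hB i
      have h4 := norm_nonneg z
      linarith
  have hbdd : Bornology.IsBounded (orb A t z) := by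
    rw [isBounded_iff_forall_norm_le]
    refine ⟨2 * B + ‖z‖, ?_⟩
    rintro _ ⟨w, rfl⟩
    exact hbd w
  refine ⟨closure (orb A t z), ⟨z, subset_closure ⟨[], rfl⟩⟩, hbdd.isCompact_closure, ?_⟩
  have hcl : ∀ i, closure (amap A t i '' orb A t z) = amap A t i '' closure (orb A t z) := by
    intro i
    apply Set.Subset.antisymm
    · exact closure_minimal (Set.image_mono subset_closure)
        ((hbdd.isCompact_closure.image (continuous_amap A t i)).isClosed)
    · exact image_closure_subset_closure_image (continuous_amap A t i)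
  conv_lhs => rw [orb_eq A t z i0 hz, closure_iUnion_of_finite]
  simp only [hcl]
  rfl

end exist

end Pool.Agent.N239.Aff
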