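import Mathlib

set_option autoImplicit false
open Set Metric
open scoped ENNReal NNReal

namespace Pool.Agent.N239.Aff

/-- `ℝ^d` with the Euclidean norm. -/
abbrev Euc (d : ℕ) := EuclideanSpace ℝ (Fin d)

/-- `F` is the attractor of the maps `x ↦ A i x + t i`: nonempty, compact and the union of its images. -/
def IsAttractor {d m : ℕ} (A : Fin m → (Euc d →L[ℝ] Euc d)) (t : Fin m → Euc d) (F : Set (Euc d)) : Prop :=
  F.Nonempty ∧ IsCompact F ∧ F = ⋃ i, (fun x => A i x + t i) '' F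

/-- `N_r(E)`: the least number of sets of diameter at most `r` covering `E`. -/
noncomputable def coverNum {d : ℕ} (r : ℝ) (E : Set (Euc d)) : ℕ :=
  sInf {n : ℕ | ∃ U : Fin n → Set (Euc d), (∀ i, ∀ x ∈ U i, ∀ y ∈ U i, dist x y ≤ r) ∧ E ⊆ ⋃ i, U i}

/-- The Assouad dimension: the infimum of the `s ≥ 0` for which there is `C > 0` with
`N_r(B(x,R) ∩ F) ≤ C (R/r)^s` for all `x ∈ F` and `0 < r < R`. -/
noncomputable def assouadDim {d : ℕ} (F : Set (Euc d)) : ℝ≥0∞ :=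
  sInf {a : ℝ≥0∞ | ∃ s : ℝ≥0, a = s ∧ ∃ C : ℝ, 0 < C ∧ ∀ x ∈ F, ∀ r R : ℝ, 0 < r → r < R →
    (coverNum r (closedBall x R ∩ F) : ℝ) ≤ C * (R / r) ^ (s : ℝ)}

/-- The lower dimension: the supremum of the `s ≥ 0` for which there is `C > 0` with
`N_r(B(x,R) ∩ F) ≥ C (R/r)^s` for all `x ∈ F` and `0 < r < R ≤ diam F`. -/
noncomputable def lowerDim {d : ℕ} (F : Set (Euc d)) : ℝ≥0∞ :=
  sSup {a : ℝ≥0∞ | ∃ s : ℝ≥0, a = s ∧ ∃ C : ℝ, 0 < C ∧ ∀ x ∈ F, ∀ r R : ℝ, 0 < r → r < R →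
    R ≤ diam F → C * (R / r) ^ (s : ℝ) ≤ (coverNum r (closedBall x R ∩ F) : ℝ)}

end Pool.Agent.N239.Aff
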