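import Pool.Agent.N239.Aff.Main

set_option autoImplicit false
open Set Metric MeasureTheory Filter
open scoped ENNReal NNReal Topology

namespace Pool.Agent.N239.Aff

theorem coverNum_le' {d : ℕ} {ι : Type} [Fintype ι] (r : ℝ) (E : Set (Euc d)) (U : ι → Set (Euc d))
    (h : ∀ i, ∀ x ∈ U i, ∀ y ∈ U i, dist x y ≤ r) (hE : E ⊆ ⋃ i, U i) : coverNum r E ≤ Fintype.card ι := by
  let e := Fintype.equivFin ι
  refine coverNum_le r E (fun k => U (e.symm k)) (fun k => h _) (fun x hx => ?_)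
  obtain ⟨i, hi⟩ := mem_iUnion.1 (hE hx)
  refine mem_iUnion.2 ⟨e i, ?_⟩
  rw [Equiv.symm_apply_apply]
  exact hi

/-- the growth of the covering numbers in the vertical direction -/
def M : ℕ → ℕ
  | 0 => 1
  | k + 1 => M k + M (k - 3)
  decreasing_by all_goals omega

theorem M_zero : M 0 = 1 := by rw [M]
theorem M_succ (k : ℕ) : M (k+1) = M k + M (k-3) := by rw [M]

theorem M_le (k : ℕ) : (M k : ℝ) ≤ 2 * (7/5)^k := by
  induction k using Nat.strong_induction_on with
  | _ k ih =>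
    have h0 : M 0 = 1 := M_zero
    have h1 : M 1 = 2 := by rw [M_succ, h0]
    have h2 : M 2 = 3 := by rw [M_succ, h1, h0]
    have h3 : M 3 = 4 := by rw [M_succ, h2, h0]
    match k, ih with
    | 0, _ => rw [h0]; norm_num
    | 1, _ => rw [h1]; norm_num
    | 2, _ => rw [h2]; norm_num
    | 3, _ => rw [h3]; norm_num
    | j + 4, ih =>
      have ha := ih (j+3) (by omega)
      have hb := ih j (by omega)
      rw [M_succ, show j + 3 - 3 = j by omega]
      push_cast
      have hp : (0:ℝ) < (7/5)^j := by positivity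
      rw [pow_add] at ha ⊢
      nlinarith

/-- `F` is covered by at most `N` sets of height at most `r`. -/
def VCov (F : Set (Euc 2)) (N : ℕ) (r : ℝ) : Prop :=
  ∃ (ι : Type) (_ : Fintype ι) (U : ι → Set (Euc 2)), Fintype.card ι = N ∧
    (∀ i, ∀ x ∈ U i, ∀ y ∈ U i, |x 1 - y 1| ≤ r) ∧ F ⊆ ⋃ i, U i

section fixed
variable {t : Fin 2 → Euc 2} {F : Set (Euc 2)} (hF : IsAttractor AA t F)

/-- the vertical distance of the fixed points -/
noncomputable def Del (t : Fin 2 → Euc 2) : ℝ := 3/2 * t 1 1 - 81/80 * t 0 1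

/-- the fixed point of the first map -/
noncomputable def z0 (t : Fin 2 → Euc 2) : Euc 2 := !₂[9/8 * t 0 0, 81/80 * t 0 1]
/-- the fixed point of the second map -/
noncomputable def z1 (t : Fin 2 → Euc 2) : Euc 2 := !₂[9/8 * t 1 0, 3/2 * t 1 1]

theorem z0_x : z0 t 0 = 9/8 * t 0 0 := by simp [z0]
theorem z0_y : z0 t 1 = 81/80 * t 0 1 := by simp [z0]
theorem z1_x : z1 t 0 = 9/8 * t 1 0 := by simp [z1]
theorem z1_y : z1 t 1 = 3/2 * t 1 1 := by simp [z1]

theorem z0_fix : f t 0 (z0 t) = z0 t := by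
  ext j
  fin_cases j
  · show f t 0 (z0 t) 0 = z0 t 0
    rw [f_x, z0_x]; ring
  · show f t 0 (z0 t) 1 = z0 t 1
    rw [f0_y, z0_y]; ring

theorem z1_fix : f t 1 (z1 t) = z1 t := by
  ext j
  fin_cases j
  · show f t 1 (z1 t) 0 = z1 t 0
    rw [f_x, z1_x]; ring
  · show f t 1 (z1 t) 1 = z1 t 1
    rw [f1_y, z1_y]; ring

/-- normalised vertical coordinate, 0 at the second fixed point, 1 at the first -/
noncomputable def v (t : Fin 2 → Euc 2) (p : Euc 2) : ℝ := (z1 t 1 - p 1) / Del t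

theorem v0 (hD : Del t ≠ 0) (p : Euc 2) : v t (f t 0 p) = 80/81 + v t p / 81 := by
  unfold v
  rw [f0_y, z1_y]
  field_simp
  unfold Del
  ring

theorem v1 (p : Euc 2) : v t (f t 1 p) = v t p / 3 := by
  unfold v
  rw [f1_y, z1_y]
  ring

theorem continuous_v : Continuous (v t) := by
  unfold v
  fun_prop

include hF

theorem v_le (hD : Del t ≠ 0) (p : Euc 2) (hp : p ∈ F) : v t p ≤ 1 := by
  obtain ⟨a, ha, hmax⟩ := hF.2.1.exists_isMaxOn hF.1 (f := v t) continuous_v.continuousOn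
  refine (hmax hp).trans ?_
  obtain ⟨i, b, hb, rfl⟩ := ex_f hF a ha
  have h1 : v t b ≤ v t (f t i b) := hmax hb
  fin_cases i
  · show v t (f t 0 b) ≤ 1
    have h1' : v t b ≤ v t (f t 0 b) := h1
    rw [v0 hD] at h1' ⊢
    linarith
  · show v t (f t 1 b) ≤ 1
    have h1' : v t b ≤ v t (f t 1 b) := h1
    rw [v1] at h1' ⊢
    linarith

theorem v_ge (hD : Del t ≠ 0) (p : Euc 2) (hp : p ∈ F) : 0 ≤ v t p := by
  obtain ⟨a, ha, hmin⟩ := hF.2.1.exists_isMinOn hF.1 (f := v t) continuous_v.continuousOn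
  refine le_trans ?_ (hmin hp)
  obtain ⟨i, b, hb, rfl⟩ := ex_f hF a ha
  have h1 : v t (f t i b) ≤ v t b := hmin hb
  fin_cases i
  · show 0 ≤ v t (f t 0 b)
    have h1' : v t (f t 0 b) ≤ v t b := h1
    rw [v0 hD] at h1' ⊢
    linarith
  · show 0 ≤ v t (f t 1 b)
    have h1' : v t (f t 1 b) ≤ v t b := h1
    rw [v1] at h1' ⊢
    linarith

theorem mem_iter (hD : Del t ≠ 0) (n : ℕ) : ∀ p ∈ F, v t p ≤ (1/3)^n → ∃ q ∈ F, (f t 1)^[n] q = p := by
  induction n with
  | zero => exact fun p hp _ => ⟨p, hp, rfl⟩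
  | succ n ih =>
    intro p hp hv
    obtain ⟨i, q, hq, rfl⟩ := ex_f hF p hp
    have h3 : (1/3:ℝ)^(n+1) ≤ 1/3 := by
      rw [pow_succ]
      have : (1/3:ℝ)^n ≤ 1 := pow_le_one₀ (by norm_num) (by norm_num)
      linarith
    fin_cases i
    · exfalso
      have h1 : v t (f t 0 q) ≤ (1/3)^(n+1) := hv
      rw [v0 hD] at h1
      have := v_ge hF hD q hq
      linarith
    · have h1 : v t (f t 1 q) ≤ (1/3)^(n+1) := hv
      rw [v1, pow_succ] at h1
      obtain ⟨q', hq', h⟩ := ih q hq (by linarith)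
      refine ⟨q', hq', ?_⟩
      rw [Function.iterate_succ_apply', h]
      rfl

theorem vcov (hD : Del t ≠ 0) (k : ℕ) : VCov F (M k) (|Del t| * (1/3)^k) := by
  have hD' : 0 < |Del t| := abs_pos.2 hD
  induction k using Nat.strong_induction_on with
  | _ k ih =>
    match k, ih with
    | 0, _ =>
      refine ⟨Unit, inferInstance, fun _ => F, by rw [M_zero]; rfl, ?_, ?_⟩
      · intro _ x hx y hy
        have hx1 := v_le hF hD x hx
        have hx0 := v_ge hF hD x hx
        have hy1 := v_le hF hD y hy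
        have hy0 := v_ge hF hD y hy
        have e : x 1 - y 1 = Del t * (v t y - v t x) := by
          unfold v
          field_simp
          ring
        rw [e, abs_mul, pow_zero]
        refine mul_le_mul_of_nonneg_left ?_ hD'.le
        rw [abs_le]
        constructor <;> linarith
      · exact fun x hx => mem_iUnion.2 ⟨(), hx⟩
    | k + 1, ih =>
      obtain ⟨ι, _, U, hc, hU, hcov⟩ := ih k (by omega)
      obtain ⟨κ, _, V, hc', hV, hcov'⟩ := ih (k - 3) (by omega)
      refine ⟨ι ⊕ κ, inferInstance, Sum.elim (fun i => f t 1 '' U i) (fun i => f t 0 '' V i), ?_, ?_, ?_⟩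
      · rw [Fintype.card_sum, hc, hc', M_succ]
      · rintro (i | i)
        · rintro _ ⟨x, hx, rfl⟩ _ ⟨y, hy, rfl⟩
          have := hU i x hx y hy
          rw [f1_y, f1_y]
          have e : x 1 / 3 + t 1 1 - (y 1 / 3 + t 1 1) = (x 1 - y 1) / 3 := by ring
          rw [e, abs_div, abs_of_pos (by norm_num : (0:ℝ) < 3), pow_succ]
          linarith
        · rintro _ ⟨x, hx, rfl⟩ _ ⟨y, hy, rfl⟩
          have h1 := hV i x hx y hy
          rw [f0_y, f0_y]
          have e : x 1 / 81 + t 0 1 - (y 1 / 81 + t 0 1) = (x 1 - y 1) / 81 := by ring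
          rw [e, abs_div, abs_of_pos (by norm_num : (0:ℝ) < 81)]
          have h2 : (1/3:ℝ)^(k-3) / 81 ≤ (1/3)^(k+1) := by
            have : (1/3:ℝ)^(k-3) / 81 = (1/3)^(k - 3 + 4) := by
              rw [pow_add]; norm_num; ring
            rw [this]
            exact pow_le_pow_of_le_one (by norm_num) (by norm_num) (by omega)
          calc |x 1 - y 1| / 81 ≤ |Del t| * (1/3)^(k-3) / 81 := by linarith
            _ = |Del t| * ((1/3)^(k-3) / 81) := by ring
            _ ≤ _ := mul_le_mul_of_nonneg_left h2 hD'.le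
      · intro p hp
        obtain ⟨i, q, hq, rfl⟩ := ex_f hF p hp
        fin_cases i
        · obtain ⟨j, hj⟩ := mem_iUnion.1 (hcov' hq)
          exact mem_iUnion.2 ⟨Sum.inr j, q, hj, rfl⟩
        · obtain ⟨j, hj⟩ := mem_iUnion.1 (hcov hq)
          exact mem_iUnion.2 ⟨Sum.inl j, q, hj, rfl⟩

omit hF in
theorem iter_x (n : ℕ) (p q : Euc 2) : (f t 1)^[n] p 0 - (f t 1)^[n] q 0 = (p 0 - q 0) * (1/9)^n := by
  induction n with
  | zero => simp
  | succ n ih =>
    rw [Function.iterate_succ_apply', Function.iterate_succ_apply', f_x, f_x, pow_succ]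
    linarith

omit hF in
theorem iter_y (n : ℕ) (p q : Euc 2) : (f t 1)^[n] p 1 - (f t 1)^[n] q 1 = (p 1 - q 1) * (1/3)^n := by
  induction n with
  | zero => simp
  | succ n ih =>
    rw [Function.iterate_succ_apply', Function.iterate_succ_apply', f1_y, f1_y, pow_succ]
    linarith

omit hF in
theorem dist_le_add (p q : Euc 2) : dist p q ≤ |p 0 - q 0| + |p 1 - q 1| := by
  rw [EuclideanSpace.dist_eq, Fin.sum_univ_two, Real.dist_eq, Real.dist_eq]
  rw [← Real.sqrt_sq (by positivity : 0 ≤ |p 0 - q 0| + |p 1 - q 1|)]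
  apply Real.sqrt_le_sqrt
  have h1 := abs_nonneg (p 0 - q 0)
  have h2 := abs_nonneg (p 1 - q 1)
  nlinarith

theorem cover_small (hD : Del t ≠ 0) (n : ℕ) :
    coverNum ((9/8 * |t 1 0 - t 0 0| + |Del t|) * (1/9)^n) (closedBall (z1 t) (|Del t| * (1/3)^n) ∩ F) ≤ M n := by
  have hD' : 0 < |Del t| := abs_pos.2 hD
  obtain ⟨ι, _, U, hc, hU, hcov⟩ := vcov hF hD n
  rw [← hc]
  refine coverNum_le' _ _ (fun i => (f t 1)^[n] '' (U i ∩ F)) ?_ ?_
  · rintro i _ ⟨x, ⟨hx, hxF⟩, rfl⟩ _ ⟨y, ⟨hy, hyF⟩, rfl⟩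
    refine (dist_le_add _ _).trans ?_
    rw [iter_x, iter_y, abs_mul, abs_mul, abs_of_pos (by positivity : (0:ℝ) < (1/9)^n),
      abs_of_pos (by positivity : (0:ℝ) < (1/3)^n), add_mul]
    refine add_le_add (mul_le_mul_of_nonneg_right (x_diam hF x y hxF hyF) (by positivity)) ?_
    have h1 := hU i x hx y hy
    have h2 : |Del t| * (1/3)^n * (1/3)^n = |Del t| * (1/9)^n := by
      rw [mul_assoc, ← mul_pow]; norm_num
    rw [← h2]
    exact mul_le_mul_of_nonneg_right h1 (by positivity)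
  · rintro p ⟨hp1, hp⟩
    rw [mem_closedBall] at hp1
    have h1 := (dist_ge_x p (z1 t) 1).trans hp1
    have h2 : v t p ≤ (1/3)^n := by
      have h3 : |v t p| ≤ (1/3)^n := by
        unfold v
        rw [abs_div, div_le_iff₀ hD', abs_sub_comm]
        linarith
      exact (le_abs_self _).trans h3
    obtain ⟨q, hq, rfl⟩ := mem_iter hF hD n p hp h2
    obtain ⟨i, hi⟩ := mem_iUnion.1 (hcov hq)
    exact mem_iUnion.2 ⟨i, q, ⟨hi, hq⟩, rfl⟩

theorem lower_le (hc : t 1 0 ≠ t 0 0) (hD : Del t ≠ 0) :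
    lowerDim F ≤ ENNReal.ofReal (Real.log (7/5) / Real.log 3) := by
  refine sSup_le ?_
  rintro _ ⟨s, rfl, C, hC, h⟩
  have hD' : 0 < |Del t| := abs_pos.2 hD
  set K : ℝ := 9/8 * |t 1 0 - t 0 0| + |Del t| with hK
  have hKpos : 0 < K := by positivity
  have hz1 : z1 t ∈ F := fix_mem hF 1 _ z1_fix
  have hz0 : z0 t ∈ F := fix_mem hF 0 _ z0_fix
  have hdiam : |Del t| ≤ diam F := by
    have h1 := dist_le_diam_of_mem hF.2.1.isBounded hz1 hz0
    have h2 := dist_ge_x (z1 t) (z0 t) 1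
    rw [z1_y, z0_y] at h2
    exact h2.trans h1
  obtain ⟨n0, hn0⟩ := pow_unbounded_of_one_lt (K / |Del t|) (by norm_num : (1:ℝ) < 3)
  have key : ∀ n : ℕ, n0 ≤ n → C * (|Del t| / K)^(s:ℝ) * ((3:ℝ)^(s:ℝ))^n ≤ 2 * (7/5)^n := by
    intro n hn
    have h3n : K / |Del t| < 3^n := hn0.trans_le (pow_le_pow_right₀ (by norm_num) hn)
    have hr : 0 < K * (1/9)^n := by positivity
    have e9 : (1/9:ℝ)^n = (1/3)^n * (1/3)^n := by rw [← mul_pow]; norm_num
    have e3 : (3:ℝ)^n * (1/3)^n = 1 := by rw [← mul_pow]; norm_num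
    have hpos3 : (0:ℝ) < (1/3)^n := by positivity
    have hrR : K * (1/9)^n < |Del t| * (1/3)^n := by
      rw [e9, ← mul_assoc]
      refine mul_lt_mul_of_pos_right ?_ hpos3
      rw [div_lt_iff₀ hD'] at h3n
      calc K * (1/3)^n < (3^n * |Del t|) * (1/3)^n := mul_lt_mul_of_pos_right h3n hpos3
        _ = |Del t| * (3^n * (1/3)^n) := by ring
        _ = |Del t| := by rw [e3, mul_one]
    have hRd : |Del t| * (1/3)^n ≤ diam F := by
      have : (1/3:ℝ)^n ≤ 1 := pow_le_one₀ (by norm_num) (by norm_num)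
      calc |Del t| * (1/3)^n ≤ |Del t| * 1 := mul_le_mul_of_nonneg_left this hD'.le
        _ ≤ diam F := by rw [mul_one]; exact hdiam
    have h1 := h (z1 t) hz1 _ _ hr hrR hRd
    have h2 : (coverNum (K * (1/9)^n) (closedBall (z1 t) (|Del t| * (1/3)^n) ∩ F) : ℝ) ≤ M n := by
      exact_mod_cast cover_small hF hD n
    have h3 := (h1.trans h2).trans (M_le n)
    have e : |Del t| * (1/3)^n / (K * (1/9)^n) = |Del t| / K * 3^n := by
      rw [e9, div_eq_iff (by positivity)]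
      calc |Del t| * (1/3)^n = |Del t| * (3^n * (1/3)^n) * (1/3)^n * (K / K) := by
            rw [e3, div_self hKpos.ne']; ring
        _ = |Del t| / K * 3^n * (K * ((1/3)^n * (1/3)^n)) := by ring
    rw [e, Real.mul_rpow (by positivity) (by positivity), ← mul_assoc] at h3
    have h5 : ((3:ℝ)^n)^(s:ℝ) = ((3:ℝ)^(s:ℝ))^n := by
      rw [← Real.rpow_natCast, ← Real.rpow_mul (by norm_num), mul_comm, Real.rpow_mul (by norm_num), Real.rpow_natCast]
    rwa [h5] at h3
  have h2 : (3:ℝ)^(s:ℝ) ≤ 7/5 := by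
    by_contra hcon
    push Not at hcon
    have hg : 1 < (3:ℝ)^(s:ℝ) / (7/5) := by rwa [one_lt_div (by norm_num)]
    have hpos : 0 < C * (|Del t| / K)^(s:ℝ) := by positivity
    obtain ⟨n1, hn1⟩ := pow_unbounded_of_one_lt (2 / (C * (|Del t| / K)^(s:ℝ))) hg
    have hn : 2 / (C * (|Del t| / K)^(s:ℝ)) < ((3:ℝ)^(s:ℝ) / (7/5))^(max n0 n1) :=
      hn1.trans_le (pow_le_pow_right₀ hg.le (le_max_right _ _))
    have hk := key (max n0 n1) (le_max_left _ _)
    rw [div_pow, div_lt_div_iff₀ hpos (by positivity)] at hn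
    linarith
  have h4 : s * Real.log 3 ≤ Real.log (7/5) := by
    have := Real.log_le_log (by positivity) h2
    rwa [Real.log_rpow (by norm_num)] at this
  have h5 : (s:ℝ) ≤ Real.log (7/5) / Real.log 3 := by
    rwa [le_div_iff₀ (Real.log_pos (by norm_num))]
  rw [ENNReal.le_ofReal_iff_toReal_le ENNReal.coe_ne_top (by positivity)]
  simpa using h5

theorem lower_lt_assouad (hc : t 1 0 ≠ t 0 0) (hD : Del t ≠ 0) : lowerDim F < assouadDim F := by
  refine (lower_le hF hc hD).trans_lt (lt_of_lt_of_le ?_ (assouad_ge hF hc))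
  have h2 : (0:ℝ) < Real.log 2 := Real.log_pos (by norm_num)
  have h3 : (0:ℝ) < Real.log 3 := Real.log_pos (by norm_num)
  have h9 : Real.log 9 = 2 * Real.log 3 := by
    rw [show (9:ℝ) = 3^2 by norm_num, Real.log_pow]; norm_num
  rw [ENNReal.ofReal_lt_ofReal_iff (by positivity), h9, div_lt_div_iff₀ h3 (by positivity)]
  have h : 2 * Real.log (7/5) < Real.log 2 := by
    have : 2 * Real.log (7/5) = Real.log ((7/5)^2) := by rw [Real.log_pow]; norm_num
    rw [this]
    exact Real.log_lt_log (by norm_num) (by norm_num)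
  nlinarith

end fixed

end Pool.Agent.N239.Aff
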