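import Pool.Agent.N239.Aff.Basic

set_option autoImplicit false
open Set Metric MeasureTheory Filter
open scoped ENNReal NNReal Topology

namespace Pool.Agent.N239.Aff

/-- The diagonal entries of the two linear maps. -/
noncomputable def ent : Fin 2 → Fin 2 → ℝ := ![![1/9, 1/81], ![1/9, 1/3]]

/-- The two linear maps. -/
noncomputable def AA (i : Fin 2) : Euc 2 →L[ℝ] Euc 2 := diagMap (ent i)

theorem AA_norm (i : Fin 2) : ‖AA i‖ ≤ 1/3 := by
  refine diagMap_norm _ _ (by norm_num) (fun j => ?_)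
  fin_cases i <;> fin_cases j <;> simp [ent] <;> norm_num [abs_of_pos]

theorem AA_norm' (i : Fin 2) : ‖AA i‖ < 1/2 := (AA_norm i).trans_lt (by norm_num)

theorem AA_bij (i : Fin 2) : Function.Bijective (AA i) := by
  refine diagMap_bij _ (fun j => ?_)
  fin_cases i <;> fin_cases j <;> simp [ent]

section fixed
variable (t : Fin 2 → Euc 2)

/-- the affine maps -/
noncomputable def f (i : Fin 2) (x : Euc 2) : Euc 2 := AA i x + t i

theorem f_x (i : Fin 2) (p : Euc 2) : f t i p 0 = p 0 / 9 + t i 0 := by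
  have : f t i p 0 = ent i 0 * p 0 + t i 0 := rfl
  rw [this]
  fin_cases i <;> simp [ent] <;> ring

theorem f0_y (p : Euc 2) : f t 0 p 1 = p 1 / 81 + t 0 1 := by
  have : f t 0 p 1 = ent 0 1 * p 1 + t 0 1 := rfl
  rw [this]
  simp [ent]; ring

theorem f1_y (p : Euc 2) : f t 1 p 1 = p 1 / 3 + t 1 1 := by
  have : f t 1 p 1 = ent 1 1 * p 1 + t 1 1 := rfl
  rw [this]
  simp [ent]; ring

theorem dist_f (i : Fin 2) (p q : Euc 2) : dist (f t i p) (f t i q) ≤ 1/3 * dist p q := by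
  unfold f
  rw [dist_add_right, dist_eq_norm, ← map_sub, dist_eq_norm]
  exact ((AA i).le_opNorm _).trans (mul_le_mul_of_nonneg_right (AA_norm i) (norm_nonneg _))

variable {t} {F : Set (Euc 2)} (hF : IsAttractor AA t F)
include hF

theorem mem_f (i : Fin 2) (p : Euc 2) (hp : p ∈ F) : f t i p ∈ F := by
  rw [hF.2.2]
  exact mem_iUnion.2 ⟨i, p, hp, rfl⟩

theorem ex_f (p : Euc 2) (hp : p ∈ F) : ∃ i, ∃ q ∈ F, f t i q = p := by
  rw [hF.2.2] at hp
  obtain ⟨i, q, hq, h⟩ := mem_iUnion.1 hp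
  exact ⟨i, q, hq, h⟩

theorem fix_mem (i : Fin 2) (z : Euc 2) (hz : f t i z = z) : z ∈ F := by
  obtain ⟨p, hp, hmin⟩ := hF.2.1.exists_isMinOn hF.1 (f := fun p => dist p z) (by fun_prop)
  have h1 : dist p z ≤ dist (f t i p) z := hmin (mem_f hF i p hp)
  have h2 : dist (f t i p) z ≤ 1/3 * dist p z := by
    conv_lhs => rw [← hz]
    exact dist_f t i p z
  have h3 : dist p z = 0 := le_antisymm (by linarith) dist_nonneg
  rw [dist_eq_zero] at h3
  rwa [← h3]

/-! ### Horizontal direction -/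

theorem x_diam (p q : Euc 2) (hp : p ∈ F) (hq : q ∈ F) : |p 0 - q 0| ≤ 9/8 * |t 1 0 - t 0 0| := by
  have hcomp : IsCompact (F ×ˢ F) := hF.2.1.prod hF.2.1
  obtain ⟨⟨a, b⟩, ⟨ha, hb⟩, hmax⟩ := hcomp.exists_isMaxOn (hF.1.prod hF.1)
    (f := fun v : Euc 2 × Euc 2 => |v.1 0 - v.2 0|) (by fun_prop)
  obtain ⟨i, a', ha', rfl⟩ := ex_f hF a ha
  obtain ⟨j, b', hb', rfl⟩ := ex_f hF b hb
  have h1 : |a' 0 - b' 0| ≤ |f t i a' 0 - f t j b' 0| := hmax (mk_mem_prod ha' hb')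
  have h2 : |f t i a' 0 - f t j b' 0| ≤ |a' 0 - b' 0| / 9 + |t 1 0 - t 0 0| := by
    rw [f_x, f_x]
    have e : a' 0 / 9 + t i 0 - (b' 0 / 9 + t j 0) = (a' 0 - b' 0) / 9 + (t i 0 - t j 0) := by ring
    rw [e]
    refine (abs_add_le _ _).trans ?_
    rw [abs_div, abs_of_pos (by norm_num : (0:ℝ) < 9)]
    have : |t i 0 - t j 0| ≤ |t 1 0 - t 0 0| := by
      fin_cases i <;> fin_cases j <;> simp
      rw [abs_sub_comm]
    linarith
  have h3 : |p 0 - q 0| ≤ |f t i a' 0 - f t j b' 0| := hmax (mk_mem_prod hp hq)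
  linarith

omit hF in
/-- points coded by finite words -/
noncomputable def pt (t : Fin 2 → Euc 2) (p : Euc 2) : (n : ℕ) → (Fin n → Fin 2) → Euc 2
  | 0, _ => p
  | n + 1, w => f t (w 0) (pt t p n (Fin.tail w))

theorem pt_mem (p : Euc 2) (hp : p ∈ F) (n : ℕ) (w : Fin n → Fin 2) : pt t p n w ∈ F := by
  induction n with
  | zero => exact hp
  | succ n ih => exact mem_f hF _ _ (ih _)

theorem pt_sep (p : Euc 2) (hp : p ∈ F) (n : ℕ) (w w' : Fin n → Fin 2) (hne : w ≠ w') :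
    |t 1 0 - t 0 0| * (1/9)^n ≤ |pt t p n w 0 - pt t p n w' 0| := by
  induction n with
  | zero => exact absurd (Subsingleton.elim _ _) hne
  | succ n ih =>
    by_cases h0 : w 0 = w' 0
    · have htail : Fin.tail w ≠ Fin.tail w' := by
        intro h
        apply hne
        rw [← Fin.cons_self_tail w, ← Fin.cons_self_tail w', h, h0]
      have := ih _ _ htail
      have e : pt t p (n+1) w 0 - pt t p (n+1) w' 0 = (pt t p n (Fin.tail w) 0 - pt t p n (Fin.tail w') 0) / 9 := by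
        show f t (w 0) _ 0 - f t (w' 0) _ 0 = _
        rw [f_x, f_x, h0]; ring
      rw [e, abs_div, abs_of_pos (by norm_num : (0:ℝ) < 9), pow_succ]
      linarith
    · have e : pt t p (n+1) w 0 - pt t p (n+1) w' 0 = (pt t p n (Fin.tail w) 0 - pt t p n (Fin.tail w') 0) / 9
          + (t (w 0) 0 - t (w' 0) 0) := by
        show f t (w 0) _ 0 - f t (w' 0) _ 0 = _
        rw [f_x, f_x]; ring
      have h1 : |t (w 0) 0 - t (w' 0) 0| = |t 1 0 - t 0 0| := by
        generalize w 0 = i at h0 ⊢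
        generalize w' 0 = j at h0 ⊢
        fin_cases i <;> fin_cases j <;> simp at h0 ⊢
        rw [abs_sub_comm]
      have h2 := x_diam hF _ _ (pt_mem hF p hp n (Fin.tail w)) (pt_mem hF p hp n (Fin.tail w'))
      have h3 : |t (w 0) 0 - t (w' 0) 0| - |(pt t p n (Fin.tail w) 0 - pt t p n (Fin.tail w') 0) / 9|
          ≤ |pt t p (n+1) w 0 - pt t p (n+1) w' 0| := by
        have := abs_sub_abs_le_abs_sub (t (w 0) 0 - t (w' 0) 0) (-((pt t p n (Fin.tail w) 0 - pt t p n (Fin.tail w') 0) / 9))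
        rw [abs_neg, sub_neg_eq_add] at this
        have e2 : pt t p (n+1) w 0 - pt t p (n+1) w' 0 = (t (w 0) 0 - t (w' 0) 0)
          + (pt t p n (Fin.tail w) 0 - pt t p n (Fin.tail w') 0) / 9 := by rw [e]; ring
        rw [e2]
        exact this
      rw [abs_div, abs_of_pos (by norm_num : (0:ℝ) < 9), h1] at h3
      have h4 : (1/9:ℝ)^(n+1) ≤ 1/9 := by
        rw [pow_succ]
        have : (1/9:ℝ)^n ≤ 1 := pow_le_one₀ (by norm_num) (by norm_num)
        linarith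
      have h5 := abs_nonneg (t 1 0 - t 0 0)
      nlinarith

omit hF in
theorem dist_ge_x (p q : Euc 2) (j : Fin 2) : |p j - q j| ≤ dist p q := by
  rw [dist_eq_norm]
  have := PiLp.norm_apply_le (p - q) j
  rw [Real.norm_eq_abs] at this
  exact this

theorem cover_ge (hc : t 1 0 ≠ t 0 0) (p : Euc 2) (hp : p ∈ F) (R : ℝ) (hR : ∀ q ∈ F, dist q p ≤ R) (n : ℕ) :
    (2:ℕ)^n ≤ coverNum (|t 1 0 - t 0 0| / 2 * (1/9)^n) (closedBall p R ∩ F) := by
  have hc' : 0 < |t 1 0 - t 0 0| := abs_pos.2 (sub_ne_zero.2 hc)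
  have h := le_coverNum (ι := Fin n → Fin 2) (|t 1 0 - t 0 0| / 2 * (1/9)^n) (by positivity) (closedBall p R ∩ F)
    (isBounded_closedBall.subset inter_subset_left) (fun w => pt t p n w)
    (fun w => ⟨hR _ (pt_mem hF p hp n w), pt_mem hF p hp n w⟩) (by
      intro w w' hne
      refine lt_of_lt_of_le ?_ ((pt_sep hF p hp n w w' hne).trans (dist_ge_x _ _ 0))
      have : (0:ℝ) < (1/9)^n := by positivity
      nlinarith)
  simpa using h

theorem assouad_ge (hc : t 1 0 ≠ t 0 0) : ENNReal.ofReal (Real.log 2 / Real.log 9) ≤ assouadDim F := by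
  refine le_sInf ?_
  rintro _ ⟨s, rfl, C, hC, h⟩
  obtain ⟨p, hp⟩ := hF.1
  have hc' : 0 < |t 1 0 - t 0 0| := abs_pos.2 (sub_ne_zero.2 hc)
  -- a radius containing everything
  obtain ⟨R, hR0, hR⟩ : ∃ R : ℝ, |t 1 0 - t 0 0| ≤ R ∧ ∀ q ∈ F, dist q p ≤ R := by
    obtain ⟨R, hR⟩ := isBounded_iff.1 hF.2.1.isBounded
    exact ⟨max R |t 1 0 - t 0 0|, le_max_right _ _, fun q hq => (hR hq hp).trans (le_max_left _ _)⟩
  have hRpos : 0 < R := hc'.trans_le hR0
  have key : ∀ n : ℕ, (2 / (9:ℝ)^(s:ℝ))^n ≤ C * (2 * R / |t 1 0 - t 0 0|)^(s:ℝ) := by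
    intro n
    have h1 := cover_ge hF hc p hp R hR n
    have hr : (0:ℝ) < |t 1 0 - t 0 0| / 2 * (1/9)^n := by positivity
    have h9 : (1/9:ℝ)^n ≤ 1 := pow_le_one₀ (by norm_num) (by norm_num)
    have hrR : |t 1 0 - t 0 0| / 2 * (1/9)^n < R := by nlinarith
    have h2 := h p hp _ R hr hrR
    have h3 : ((2:ℕ)^n : ℝ) ≤ (coverNum (|t 1 0 - t 0 0| / 2 * (1/9)^n) (closedBall p R ∩ F) : ℝ) := by
      exact_mod_cast h1
    have h4 : R / (|t 1 0 - t 0 0| / 2 * (1/9)^n) = (2 * R / |t 1 0 - t 0 0|) * 9^n := by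
      rw [one_div, inv_pow]
      field_simp
    rw [h4, Real.mul_rpow (by positivity) (by positivity), ← mul_assoc] at h2
    have h5 : ((9:ℝ)^n)^(s:ℝ) = ((9:ℝ)^(s:ℝ))^n := by
      rw [← Real.rpow_natCast, ← Real.rpow_mul (by norm_num), mul_comm, Real.rpow_mul (by norm_num), Real.rpow_natCast]
    rw [h5] at h2
    rw [div_pow, div_le_iff₀ (by positivity)]
    have h6 := h3.trans h2
    push_cast at h6
    exact h6
  have h2 : 2 / (9:ℝ)^(s:ℝ) ≤ 1 := by
    by_contra hcon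
    push Not at hcon
    obtain ⟨n, hn⟩ := pow_unbounded_of_one_lt (C * (2 * R / |t 1 0 - t 0 0|)^(s:ℝ)) hcon
    exact absurd (key n) (not_le.2 hn)
  have h3 : (2:ℝ) ≤ 9^(s:ℝ) := by
    rwa [div_le_one (by positivity)] at h2
  have h4 : Real.log 2 ≤ s * Real.log 9 := by
    have := Real.log_le_log (by norm_num) h3
    rwa [Real.log_rpow (by norm_num)] at this
  have h5 : Real.log 2 / Real.log 9 ≤ s := by
    rwa [div_le_iff₀ (Real.log_pos (by norm_num))]
  rw [ENNReal.ofReal_le_iff_le_toReal ENNReal.coe_ne_top]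
  simpa using h5

end fixed

end Pool.Agent.N239.Aff
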